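import Pool.Agent.J4.H73.RN.Fin

/-!
# A random diagonal plus a matrix that is small in operator norm is not reductive (MP_49c4d9_an)

Let `H` be a Hilbert space with orthonormal basis `b`, let `V x` be independent complex random variables
and let `a` be a complex matrix. The starting file `ReductiveRandomDiagonal` of this folder treats
operators `T ω` with the matrix `a + diag V` under a condition on the absolute sums
`∑_{y ≠ x} |a x y|^σ`, `∑_{y ≠ x} |a y x|^σ` with `σ ≤ 1`. Here no sum of absolute values is restricted: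
with `1 < s < 2` and the conjugate exponent `q`, only the operator norms on `ℓ^s` and `ℓ^q` of the
off-diagonal part of `a`, with finitely many rows and finitely many columns omitted, have to be small
compared to the disorder. In particular (second part of the theorem) every off-diagonal part that is
compact on `ℓ^s` and, transposed, on `ℓ^s` is admitted without any smallness, for laws with bounded
densities in the plane. (Small multiples of bounded discrete singular integrals, for instance of the
discrete Hilbert transform, whose rows are not absolutely summable, are covered by the first part.)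

Conclusion: almost surely `T ω` is normal if it is reductive, and if `a` is not diagonal then almost
surely `T ω` is not reductive: it has a closed invariant subspace that does not reduce it.

Proof. Project RD (`Pool.Agent.J4.H86.RD`, by helper86 and many seats): the `s`-th moments of the
columns of the inverses of finite sections of `T ω - z` are bounded, uniformly in `z ∈ ℂ`, by the
expansion of the inverse in one row, a decoupling inequality for complex disorder and `s`-th powers; so
almost surely all basis vectors have locally integrable local resolvents, for `T ω` and its adjoint. The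
starting theorem `ReductiveLocalResolvents` says that then `T ω` is normal if it is reductive. An entry
of the self-commutator shows that normality forces a real linear relation between `V x` and `V y`
whenever `a x y ≠ 0`, `x ≠ y`; its probability is zero, as laws with bounded potentials of order
`s > 1` do not charge lines.
-/

set_option autoImplicit false

open MeasureTheory
open scoped ENNReal

namespace Pool.Agent.Results.MP_49c4d9_an.RandomDiagonalNotReductive

/-- `T` is reductive: every closed invariant subspace is invariant under the adjoint. -/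
def Reductive {H : Type} [NormedAddCommGroup H] [InnerProductSpace ℂ H] [CompleteSpace H]
    (T : H →L[ℂ] H) : Prop :=
  ∀ V : Submodule ℂ H, IsClosed (V : Set H) → (∀ x ∈ V, T x ∈ V) →
    ∀ x ∈ V, ContinuousLinearMap.adjoint T x ∈ V

/-- The random variables `V x` are independent, and `E (σ x / |V x - z|)^s ≤ 1` for all `x` and all
complex numbers `z`. The positive number `σ x` is the size of the disorder at `x`. -/
def Disorder {Ω ι : Type} [MeasurableSpace Ω] (P : Measure Ω) (V : ι → Ω → ℂ) (σ : ι → ℝ)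
    (s : ℝ) : Prop :=
  (∀ x, 0 < σ x) ∧ (∀ x, Measurable (V x)) ∧ ProbabilityTheory.iIndepFun V P ∧
    ∀ (x : ι) (z : ℂ), ∫⁻ ω, (ENNReal.ofReal (σ x) * ‖V x ω - z‖ₑ⁻¹) ^ s ∂P ≤ 1

/-- The rows of `a` are `q`-summable and, for some finite set `F`, the matrix
`(a x y / σ x)_{x ∉ F, y ≠ x}` has norm at most `κ ^ (1 / s)` on `ℓ^s` (tested on finitely supported
vectors). -/
def SmallOffDiagonal {ι : Type} [DecidableEq ι] (s q κ : ℝ) (σ : ι → ℝ) (a : ι → ι → ℂ) : Prop :=
  (∀ x, Summable fun y => ‖a x y‖ ^ q) ∧ ∃ F : Finset ι, ∀ (A : Finset ι) (u : ι → ℂ),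
    ∑ x ∈ A \ F, (‖∑ y ∈ A.erase x, a x y * u y‖ / σ x) ^ s ≤ κ * ∑ y ∈ A, ‖u y‖ ^ s

/-- The rows of `a` are `q`-summable, and the off-diagonal part of `a`, with the rows in a finite set `F`
omitted, tends to zero as an operator on `ℓ^s` along the finite sets (so it is compact on `ℓ^s`). -/
def CompactOffDiagonal {ι : Type} [DecidableEq ι] (s q : ℝ) (a : ι → ι → ℂ) : Prop :=
  (∀ x, Summable fun y => ‖a x y‖ ^ q) ∧ ∀ κ : ℝ, 0 < κ → ∃ F : Finset ι,
    ∀ (A : Finset ι) (u : ι → ℂ),
      ∑ x ∈ A \ F, ‖∑ y ∈ A.erase x, a x y * u y‖ ^ s ≤ κ * ∑ y ∈ A, ‖u y‖ ^ s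

/-- The random variables `V x` are independent and their laws have densities with respect to area that
are at most one constant. -/
def BoundedDensities {Ω ι : Type} [MeasurableSpace Ω] (P : Measure Ω) (V : ι → Ω → ℂ) : Prop :=
  (∀ x, Measurable (V x)) ∧ ProbabilityTheory.iIndepFun V P ∧
    ∃ ρ : ℝ, ∀ x, P.map (V x) ≤ ENNReal.ofReal ρ • (volume : Measure ℂ)

/-- The operator `T` has the matrix with the diagonal `v` and the off-diagonal entries `a x y`. -/
def HasEntries {H ι : Type} [NormedAddCommGroup H] [InnerProductSpace ℂ H] [CompleteSpace H]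
    [DecidableEq ι] (b : HilbertBasis ι ℂ H) (T : H →L[ℂ] H) (a : ι → ι → ℂ) (v : ι → ℂ) : Prop :=
  ∀ x y : ι, inner ℂ (b x) (T (b y)) = if x = y then v x else a x y

/-- Almost surely `T ω` is normal if it is reductive, and if `a x y ≠ 0` for some `x ≠ y` then almost
surely `T ω` is not reductive. -/
def Conclusion {H Ω ι : Type} [NormedAddCommGroup H] [InnerProductSpace ℂ H] [CompleteSpace H]
    [MeasurableSpace Ω] (P : Measure Ω) (a : ι → ι → ℂ) (T : Ω → (H →L[ℂ] H)) : Prop :=
  (∀ᵐ ω ∂P, Reductive (T ω) → IsStarNormal (T ω)) ∧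
    ((∃ x y, x ≠ y ∧ a x y ≠ 0) → ∀ᵐ ω ∂P, ¬ Reductive (T ω))

/-- from the real form of the condition to the form of project RD -/
theorem sml_of {ι : Type} [DecidableEq ι] {s q κ : ℝ} (hs : 0 < s) (hκ : 0 ≤ κ) {σ : ι → ℝ}
    (hσ : ∀ x, 0 < σ x) {a : ι → ι → ℂ} {F : Finset ι} (h1 : ∀ x, Summable fun y => ‖a x y‖ ^ q)
    (h2 : ∀ (A : Finset ι) (u : ι → ℂ),
      ∑ x ∈ A \ F, (‖∑ y ∈ A.erase x, a x y * u y‖ / σ x) ^ s ≤ κ * ∑ y ∈ A, ‖u y‖ ^ s)
    {F' : Finset ι} (hF : F ⊆ F') :
    Pool.Agent.J4.H86.RD.Sml s q (ENNReal.ofReal κ) (fun x y => ((σ x : ℂ))⁻¹ * a x y) F' := by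
  constructor
  · intro x
    have h3 := (h1 x).mul_left (‖((σ x : ℂ))⁻¹‖ ^ q)
    refine h3.congr fun y => ?_
    rw [← Real.mul_rpow (norm_nonneg _) (norm_nonneg _), ← norm_mul]
  · intro A u
    have e1 : ∀ x, ‖∑ w ∈ A.erase x, ((σ x : ℂ))⁻¹ * a x w * u w‖ₑ ^ s =
        ENNReal.ofReal ((‖∑ y ∈ A.erase x, a x y * u y‖ / σ x) ^ s) := by
      intro x
      have e2 : ∑ w ∈ A.erase x, ((σ x : ℂ))⁻¹ * a x w * u w =
          ((σ x : ℂ))⁻¹ * ∑ w ∈ A.erase x, a x w * u w := by
        rw [Finset.mul_sum]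
        refine Finset.sum_congr rfl fun w _ => ?_
        ring
      have e3 : ‖((σ x : ℂ))⁻¹ * ∑ w ∈ A.erase x, a x w * u w‖ =
          ‖∑ y ∈ A.erase x, a x y * u y‖ / σ x := by
        rw [norm_mul, norm_inv, Complex.norm_real, Real.norm_of_nonneg (hσ x).le]
        ring
      rw [e2, ← ofReal_norm, e3, ENNReal.ofReal_rpow_of_nonneg (by have := hσ x; positivity) hs.le]
    have e4 : ∀ w, ‖u w‖ₑ ^ s = ENNReal.ofReal (‖u w‖ ^ s) := by
      intro w
      rw [← ofReal_norm, ENNReal.ofReal_rpow_of_nonneg (norm_nonneg _) hs.le]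
    simp only [e1, e4]
    rw [← ENNReal.ofReal_sum_of_nonneg (fun x _ => by have := hσ x; positivity),
      ← ENNReal.ofReal_sum_of_nonneg (fun x _ => by positivity), ← ENNReal.ofReal_mul hκ]
    apply ENNReal.ofReal_le_ofReal
    refine le_trans ?_ (h2 A u)
    refine Finset.sum_le_sum_of_subset_of_nonneg (Finset.sdiff_subset_sdiff le_rfl hF)
      fun x _ _ => by have := hσ x; positivity

/-- First part: let `1 < s ≤ 2`, let `q` be the conjugate exponent and `512 κ < 1`. Let `V x` be
independent random variables with disorder of size `σ x`, and let the off-diagonal parts of the matrix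
`a` and of its transpose be small outside a finite set of rows. Let `T ω` be bounded operators on `H`
with the diagonal entries `V x ω` and the off-diagonal entries `a x y` in the orthonormal basis `b`.
Then almost surely `T ω` is normal if it is reductive, and if `a x y ≠ 0` for some `x ≠ y` then
almost surely `T ω` is not reductive. -/
theorem part_one (H : Type) [NormedAddCommGroup H] [InnerProductSpace ℂ H] [CompleteSpace H]
    (ι : Type) [DecidableEq ι] [Countable ι] (b : HilbertBasis ι ℂ H)
    (Ω : Type) [MeasurableSpace Ω] (P : Measure Ω) [IsProbabilityMeasure P]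
    (s q κ : ℝ) (hsq : s.HolderConjugate q) (hs2 : s ≤ 2) (hκ : 512 * κ < 1)
    (V : ι → Ω → ℂ) (σ : ι → ℝ) (hV : Disorder P V σ s)
    (a : ι → ι → ℂ) (ha : SmallOffDiagonal s q κ σ a)
    (ha' : SmallOffDiagonal s q κ σ (fun x y => a y x))
    (T : Ω → (H →L[ℂ] H)) (hT : ∀ᵐ ω ∂P, HasEntries b (T ω) a (fun x => V x ω)) :
    Conclusion P a T := by
  obtain ⟨hσ, hm, hind, hmom⟩ := hV
  obtain ⟨hr, F, hF⟩ := ha
  obtain ⟨hr', F', hF'⟩ := ha'
  have hs0 : 0 < s := by linarith [hsq.lt]
  have hle : ∀ {c : ι → ι → ℂ} {E : Finset ι}, (∀ (A : Finset ι) (u : ι → ℂ),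
      ∑ x ∈ A \ E, (‖∑ y ∈ A.erase x, c x y * u y‖ / σ x) ^ s ≤ κ * ∑ y ∈ A, ‖u y‖ ^ s) →
      ∀ (A : Finset ι) (u : ι → ℂ),
      ∑ x ∈ A \ E, (‖∑ y ∈ A.erase x, c x y * u y‖ / σ x) ^ s ≤
        max κ 0 * ∑ y ∈ A, ‖u y‖ ^ s := by
    intro c E h A u
    refine (h A u).trans ?_
    gcongr
    exact le_max_left _ _
  have hκ' : 512 * ENNReal.ofReal (max κ 0) < 1 := by
    rw [show (512 : ℝ≥0∞) = ENNReal.ofReal 512 by norm_num, ← ENNReal.ofReal_mul (by norm_num),
      ← ENNReal.ofReal_one]
    apply (ENNReal.ofReal_lt_ofReal_iff one_pos).2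
    rcases le_total κ 0 with h | h
    · rw [max_eq_right h]; norm_num
    · rw [max_eq_left h]; exact hκ
  exact Pool.Agent.J4.H73.RN.final b hsq hs2 hκ' hσ a (F ∪ F')
    (sml_of hs0 (le_max_right _ _) hσ hr (hle hF) Finset.subset_union_left)
    (sml_of (a := fun x y => a y x) hs0 (le_max_right _ _) hσ hr' (hle hF')
      Finset.subset_union_right) V hm hind hmom T hT

/-- laws with bounded densities: disorder of constant size -/
theorem disorder_of {Ω ι : Type} [MeasurableSpace Ω] {P : Measure Ω} [IsProbabilityMeasure P]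
    {V : ι → Ω → ℂ} {s : ℝ} (hs : 0 < s) (hs2 : s < 2) (h : BoundedDensities P V) :
    ∃ c : ℝ, 0 < c ∧ Disorder P V (fun _ => c) s := by
  obtain ⟨hm, hind, ρ, hρ⟩ := h
  set r : ℝ := max ρ 1 with hr
  have hr0 : 0 < r := lt_of_lt_of_le one_pos (le_max_right _ _)
  set C : ℝ := (2 / (2 - s)) * (Real.pi * r) ^ (s / 2) with hC
  have h2s : 0 < 2 - s := by linarith
  have hC0 : 0 < C := by
    have := Real.pi_pos
    positivity
  have hc0 : 0 < C ^ (-(1 / s)) := Real.rpow_pos_of_pos hC0 _
  refine ⟨C ^ (-(1 / s)), hc0, fun _ => hc0, hm, hind, fun x z => ?_⟩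
  have hp : IsProbabilityMeasure (P.map (V x)) :=
    Measure.isProbabilityMeasure_map (hm x).aemeasurable
  have hle : P.map (V x) ≤ ENNReal.ofReal r • (volume : Measure ℂ) := by
    refine (hρ x).trans ?_
    gcongr
    exact le_max_left _ _
  have h1 := Pool.Agent.J4.H86.RD.dens' s hs hs2 r hr0 (P.map (V x)) hle z
  rw [lintegral_map (by fun_prop) (hm x)] at h1
  simp only [ENNReal.mul_rpow_of_nonneg _ _ hs.le]
  rw [lintegral_const_mul' _ _ (ENNReal.rpow_ne_top_of_nonneg hs.le ENNReal.ofReal_ne_top)]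
  have h2 : ENNReal.ofReal (C ^ (-(1 / s))) ^ s = ENNReal.ofReal C⁻¹ := by
    rw [ENNReal.ofReal_rpow_of_nonneg hc0.le hs.le, ← Real.rpow_mul hC0.le]
    congr 1
    rw [show -(1 / s) * s = -1 by field_simp, Real.rpow_neg_one]
  rw [h2]
  calc ENNReal.ofReal C⁻¹ * ∫⁻ ω, ‖V x ω - z‖ₑ⁻¹ ^ s ∂P ≤ ENNReal.ofReal C⁻¹ * ENNReal.ofReal C := by
        gcongr
    _ = 1 := by
      rw [← ENNReal.ofReal_mul (by positivity), inv_mul_cancel₀ hC0.ne', ENNReal.ofReal_one]

/-- compact off-diagonal parts are small against any disorder of constant size -/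
theorem small_of {ι : Type} [DecidableEq ι] {s q c : ℝ} (hc : 0 < c) {a : ι → ι → ℂ}
    (h : CompactOffDiagonal s q a) : SmallOffDiagonal s q (1 / 1024) (fun _ => c) a := by
  refine ⟨h.1, ?_⟩
  have hcs : 0 < c ^ s := Real.rpow_pos_of_pos hc s
  obtain ⟨F, hF⟩ := h.2 (1 / 1024 * c ^ s) (by positivity)
  refine ⟨F, fun A u => ?_⟩
  have h1 : ∑ x ∈ A \ F, (‖∑ y ∈ A.erase x, a x y * u y‖ / c) ^ s =
      (c ^ s)⁻¹ * ∑ x ∈ A \ F, ‖∑ y ∈ A.erase x, a x y * u y‖ ^ s := by
    rw [Finset.mul_sum]
    refine Finset.sum_congr rfl fun x _ => ?_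
    rw [Real.div_rpow (norm_nonneg _) hc.le, div_eq_inv_mul]
  rw [h1]
  calc (c ^ s)⁻¹ * ∑ x ∈ A \ F, ‖∑ y ∈ A.erase x, a x y * u y‖ ^ s ≤
      (c ^ s)⁻¹ * (1 / 1024 * c ^ s * ∑ y ∈ A, ‖u y‖ ^ s) := by
        gcongr
        exact hF A u
    _ = 1 / 1024 * ∑ y ∈ A, ‖u y‖ ^ s := by
      field_simp

/-- **Theorem.** Let `1 < s < 2` and let `q` be the conjugate exponent. Let `T ω` be bounded operators
on `H` with random independent diagonal entries `V x ω` and deterministic off-diagonal entries `a x y`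
in the orthonormal basis `b`. Suppose (1) that `V` is a disorder of size `σ` and that the off-diagonal
parts of `a` and of its transpose are small, `512 κ < 1`, or (2) that the laws of the `V x` have bounded
densities and that the off-diagonal parts of `a` and of its transpose are compact on `ℓ^s`. Then almost
surely `T ω` is normal if it is reductive, and if `a x y ≠ 0` for some `x ≠ y` then almost surely `T ω`
is not reductive. -/
theorem result (H : Type) [NormedAddCommGroup H] [InnerProductSpace ℂ H] [CompleteSpace H]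
    (ι : Type) [DecidableEq ι] [Countable ι] (b : HilbertBasis ι ℂ H)
    (Ω : Type) [MeasurableSpace Ω] (P : Measure Ω) [IsProbabilityMeasure P]
    (s q : ℝ) (hsq : s.HolderConjugate q) (hs2 : s < 2) (V : ι → Ω → ℂ) (a : ι → ι → ℂ)
    (T : Ω → (H →L[ℂ] H)) (hT : ∀ᵐ ω ∂P, HasEntries b (T ω) a (fun x => V x ω)) :
    (∀ (κ : ℝ) (σ : ι → ℝ), 512 * κ < 1 → Disorder P V σ s → SmallOffDiagonal s q κ σ a →
      SmallOffDiagonal s q κ σ (fun x y => a y x) → Conclusion P a T) ∧
    (BoundedDensities P V → CompactOffDiagonal s q a → CompactOffDiagonal s q (fun x y => a y x) →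
      Conclusion P a T) := by
  have hs0 : 0 < s := by linarith [hsq.lt]
  refine ⟨fun κ σ hκ hV ha ha' =>
    part_one H ι b Ω P s q κ hsq hs2.le hκ V σ hV a ha ha' T hT, fun hV ha ha' => ?_⟩
  obtain ⟨c, hc, hD⟩ := disorder_of hs0 hs2 hV
  exact part_one H ι b Ω P s q (1 / 1024) hsq hs2.le (by norm_num) V _ hD a (small_of hc ha)
    (small_of hc ha') T hT

end Pool.Agent.Results.MP_49c4d9_an.RandomDiagonalNotReductive
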