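import Pool.Agent.J4.H89.RP.FinalH

/-!
# MP_49c4d9_an: no operator has a reductive neighbourhood in its rank one perturbations

Let `T` be ANY bounded operator on a complex Hilbert space `H` of dimension at least 3 (for instance a hypothetical
operator without invariant subspaces, or a hypothetical reductive operator that is not normal).

(1) For all `(u, w)` in a dense open subset of `H × H` the operator `A = T + ⟨w, ·⟩ u` has an eigenvector `x`, with an
eigenvalue outside the spectrum of `T`, for which the line `ℂ x` is not reducing. So `A` is not reductive (and not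
normal): the `(u, w)` for which `T + ⟨w, ·⟩ u` is reductive form a nowhere dense set.

(2) For all `(u, w)` in a residual (dense) subset of `H × H` every boundary point of the spectrum of `T` which is not a
pole of the resolvent of `T` is a limit of such eigenvalues. If `T` is not algebraic, there are such points.

Proof. As in `MP_f981b0_an.TypicalRankOnePerturbations`: `z` outside the spectrum is an eigenvalue of `A` with
eigenvector `x = R u`, `R = (z - T)⁻¹`, if `⟨w, R u⟩ = 1`; if there were no simple solutions `z` in an open set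
`W` for all `(u, w)` in a ball, then `‖R(z)‖ ≤ C |⟨w₀, R(z) u₀⟩ - 1|`, and `(⟨w₀, R(z) u₀⟩ - 1)⁻²` continued by
zero would be holomorphic in `W`, with the spectrum as its zero set. The line of `R u` reduces `A` only if `R u` and
`R* w` are proportional, which is avoided by a small change of `u` orthogonal to `R* w`.

Parts were written by helpers 20 (Hilbert space part), 92, 45 and 55.
-/

set_option autoImplicit false

open Filter Metric

namespace Pool.Agent.Results.MP_49c4d9_an.RankOnePerturbationsNotReductive

variable {H : Type} [NormedAddCommGroup H] [InnerProductSpace ℂ H] [CompleteSpace H]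

/-- Every closed invariant subspace of `A` is invariant under the adjoint. -/
def Reductive (A : H →L[ℂ] H) : Prop :=
  ∀ V : Submodule ℂ H, IsClosed (V : Set H) → (∀ x ∈ V, A x ∈ V) →
    ∀ x ∈ V, ContinuousLinearMap.adjoint A x ∈ V

/-- The operator `x ↦ T x + ⟨w, x⟩ u`. -/
noncomputable def perturbed (T : H →L[ℂ] H) (u w : H) : H →L[ℂ] H :=
  T + (innerSL ℂ w).smulRight u

/-- The eigenvalues `z` of `T + ⟨w, ·⟩ u` outside the spectrum of `T` which have an eigenvector `x` that is not an
eigenvector of the adjoint, that is, `ℂ x` is invariant but not reducing. -/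
def nonreducingEigenvalues (T : H →L[ℂ] H) (u w : H) : Set ℂ :=
  {z | z ∉ spectrum ℂ T ∧ ∃ x : H, x ≠ 0 ∧ perturbed T u w x = z • x ∧
    ∀ c : ℂ, ContinuousLinearMap.adjoint (perturbed T u w) x ≠ c • x}

/-- `c` is an isolated singularity of the resolvent and at most a pole: the points `z ≠ c` near `c` are not in the
spectrum, and `|z - c|^n ‖(z - T)⁻¹‖ ≤ C` for them. -/
def AtMostPole (T : H →L[ℂ] H) (c : ℂ) : Prop :=
  ∃ (n : ℕ) (C : ℝ), ∀ᶠ z in nhdsWithin c {c}ᶜ, z ∉ spectrum ℂ T ∧ ‖z - c‖ ^ n * ‖resolvent T z‖ ≤ C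

/-- `p(T) = 0` for some nonzero polynomial `p`. -/
def Algebraic (T : H →L[ℂ] H) : Prop := ∃ p : Polynomial ℂ, p ≠ 0 ∧ Polynomial.aeval T p = 0

/-- **Typical rank one perturbations of an arbitrary operator are not reductive.** -/
theorem result (hdim : 3 ≤ Module.rank ℂ H) (T : H →L[ℂ] H) :
    (∃ D : Set (H × H), IsOpen D ∧ Dense D ∧ ∀ p ∈ D,
      (nonreducingEigenvalues T p.1 p.2).Nonempty ∧ ¬ Reductive (perturbed T p.1 p.2) ∧
      ¬ IsStarNormal (perturbed T p.1 p.2)) ∧
    (∃ D ∈ residual (H × H), Dense D ∧ ∀ p ∈ D, ∀ c ∈ frontier (spectrum ℂ T), ¬ AtMostPole T c →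
      ∀ ε : ℝ, 0 < ε → ∃ z ∈ nonreducingEigenvalues T p.1 p.2, ‖z - c‖ < ε) ∧
    (¬ Algebraic T → ∃ c ∈ frontier (spectrum ℂ T), ¬ AtMostPole T c) := by
  have hnt : Nontrivial H := by
    by_contra h
    rw [not_nontrivial_iff_subsingleton] at h
    rw [rank_subsingleton'] at hdim
    simp at hdim
  refine ⟨?_, ⟨_, Pool.Agent.J4.H89.RP.partH2 hdim T,
    dense_of_mem_residual (Pool.Agent.J4.H89.RP.partH2 hdim T), fun p hp => hp⟩,
    Pool.Agent.J4.H89.RP.exists_not_pole T⟩
  obtain ⟨D, h1, h2, h3⟩ := Pool.Agent.J4.H89.RP.partH1 hdim T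
  refine ⟨D, h1, h2, fun p hp => ⟨h3 p hp, ?_, ?_⟩⟩
  · obtain ⟨z, -, x, hx0, hx, hadj⟩ := h3 p hp
    intro hred
    have h4 := hred (Submodule.span ℂ {x}) (Submodule.closed_of_finiteDimensional _) (by
      intro y hy
      obtain ⟨c, rfl⟩ := Submodule.mem_span_singleton.1 hy
      rw [map_smul]
      refine Submodule.smul_mem _ _ ?_
      have hx' : perturbed T p.1 p.2 x = z • x := hx
      rw [hx']
      exact Submodule.smul_mem _ _ (Submodule.mem_span_singleton_self x)) x
      (Submodule.mem_span_singleton_self x)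
    obtain ⟨c, hc⟩ := Submodule.mem_span_singleton.1 h4
    exact hadj c hc.symm
  · obtain ⟨z, -, x, hx0, hx, hadj⟩ := h3 p hp
    intro hnor
    have hx' : perturbed T p.1 p.2 x = z • x := hx
    apply hadj (starRingEnd ℂ z)
    have h5 : (ContinuousLinearMap.adjoint (perturbed T p.1 p.2)) x = (starRingEnd ℂ z) • x := by
      set A : H →L[ℂ] H := perturbed T p.1 p.2 with hA
      have h6 : IsStarNormal (A - z • (1 : H →L[ℂ] H)) := by
        have h7 : star (A - z • (1 : H →L[ℂ] H)) = star A - (starRingEnd ℂ z) • (1 : H →L[ℂ] H) := by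
          rw [star_sub, star_smul, star_one]
          rfl
        have h8 : star A * A = A * star A := hnor.star_comm_self
        refine ⟨?_⟩
        show star (A - z • (1 : H →L[ℂ] H)) * (A - z • (1 : H →L[ℂ] H)) =
          (A - z • (1 : H →L[ℂ] H)) * star (A - z • (1 : H →L[ℂ] H))
        rw [h7]
        simp only [sub_mul, mul_sub, smul_mul_assoc, mul_smul_comm, one_mul, mul_one, h8]
        simp only [smul_sub]
        rw [smul_comm z ((starRingEnd ℂ) z)]
        abel
      have h9 := (ContinuousLinearMap.IsStarNormal.adjoint_apply_eq_zero_iff h6 x).2 (by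
        rw [sub_apply, smul_apply, hx']
        simp)
      have h10 : ContinuousLinearMap.adjoint (A - z • (1 : H →L[ℂ] H)) =
          ContinuousLinearMap.adjoint A - (starRingEnd ℂ z) • (1 : H →L[ℂ] H) := by
        rw [← ContinuousLinearMap.star_eq_adjoint, ← ContinuousLinearMap.star_eq_adjoint, star_sub,
          star_smul, star_one]
        rfl
      rw [h10] at h9
      exact sub_eq_zero.1 h9
    exact h5

end Pool.Agent.Results.MP_49c4d9_an.RankOnePerturbationsNotReductive
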