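import Pool.Agent.J4.H86.DZ.Normal
import Pool.Agent.H307R3.RO.Fin

/-!
# MP_49c4d9_an: reductive compressions of normal operators to subspaces which almost reduce them

Let `N` be a normal operator on a Hilbert space `G` with spectrum on a rectifiable curve, `P` an orthogonal
projection such that `N P - P N` is in a Schatten class (or only has approximation numbers `O(m ^ (-ε))`), and let
`T` be unitarily equivalent to `P N | P G + K`, `K` of the same kind. If `T` is reductive, then `T` is normal. More
generally `T` is normal if it is reductive and `T ^ n + Z_{n-1} T ^ (n-1) + ... + Z_0` is compact, where all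
`Z_j` are in the bicommutant of `T` and are such compressions.

Such operators `T` need not be compact perturbations of normal operators: for example all operators `T_φ + K`, `T_φ`
the Toeplitz operator of a function `φ` of a Besov class (for example Hoelder continuous) with values on a
rectifiable curve, the singular integral operators `a P + b (1 - P) + K` on the circle, the Toeplitz operators with
such symbols on the Hardy and Bergman spaces of balls, and the operators of summable Fredholm modules.

Proof. `T` is a direct summand of `A = N + K'` on `G`, `K'` with small approximation numbers. The other summand `T₂`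
of `A` is not reductive, it may have an open set of eigenvalues, and then `A` has no perturbation determinant. The
proof of `ReductiveGeneralizedScalar` (see there) is extended as follows. The eigenvectors of `T` off the curve are
counted in `G` and are moved to the curve by an operator `Δ` with small approximation numbers; `z - T - Δ` is
Fredholm off the curve and has no kernel and cokernel, as the eigenvectors of the adjoint of a reductive operator
are eigenvectors. For every point `z₀` off the curve there is an operator `F` of finite rank on the second summand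
such that `z₀ - A - Δ - F` is invertible (`Idx`, a Schur complement). Now the resolvents of the restrictions of
`T` to invariant subspaces without eigenvalues off the curve are quotients of analytic functions by the
perturbation determinant of `A + Δ + F`, which may have zeros; as they are analytic off the curve they grow at
most like `exp (C / dist ^ k)` outside cones about the tangents of the curve (`Sector`; the logarithm of the
denominator is estimated from below by area means). The essential norm of the resolvent of `T` is at most that of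
the resolvent of `N`.
-/

set_option autoImplicit false

open Metric
open scoped InnerProductSpace

namespace Pool.Agent.Results.MP_49c4d9_an.ReductiveCompressions

/-- `T` is reductive: every closed invariant subspace of `T` is invariant under the adjoint. -/
def Reductive {H : Type} [NormedAddCommGroup H] [InnerProductSpace ℂ H] [CompleteSpace H]
    (T : H →L[ℂ] H) : Prop :=
  ∀ V : Submodule ℂ H, IsClosed (V : Set H) → (∀ x ∈ V, T x ∈ V) →
    ∀ x ∈ V, ContinuousLinearMap.adjoint T x ∈ V

/-- The approximation number `a_m(K)`: the distance in operator norm from `K` to the set of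
operators of rank at most `m` (on a Hilbert space this is the singular number `s_{m+1}(K)`). -/
noncomputable def approxNumber {H : Type} [NormedAddCommGroup H] [InnerProductSpace ℂ H]
    (K : H →L[ℂ] H) (m : ℕ) : ℝ :=
  sInf {r : ℝ | ∃ G : H →L[ℂ] H, FiniteDimensional ℂ (LinearMap.range (G : H →ₗ[ℂ] H)) ∧
    Module.finrank ℂ (LinearMap.range (G : H →ₗ[ℂ] H)) ≤ m ∧ r = ‖K - G‖}

/-- The approximation numbers of `K` decay polynomially. -/
def PolyDecay {H : Type} [NormedAddCommGroup H] [InnerProductSpace ℂ H] (K : H →L[ℂ] H) : Prop :=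
  ∃ C ε : ℝ, 0 < ε ∧ ∀ m : ℕ, 1 ≤ m → approxNumber K m ≤ C / (m : ℝ) ^ ε

/-- `K` is in a Schatten class. -/
def InSchatten {H : Type} [NormedAddCommGroup H] [InnerProductSpace ℂ H] (K : H →L[ℂ] H) : Prop :=
  ∃ p : ℝ, 0 < p ∧ Summable fun m : ℕ => approxNumber K m ^ p

/-- `Γ` is a rectifiable curve: the image of `[0,1]` under a Lipschitz map. -/
def RectifiableCurve (Γ : Set ℂ) : Prop :=
  ∃ (γ : ℝ → ℂ) (L : NNReal), LipschitzWith L γ ∧ Γ = γ '' Set.Icc 0 1

/-- `K` is in a Schatten class or only has polynomially decaying approximation numbers. -/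
def Small {H : Type} [NormedAddCommGroup H] [InnerProductSpace ℂ H] (K : H →L[ℂ] H) : Prop :=
  PolyDecay K ∨ InSchatten K

/-- The spectrum of `N` is on a rectifiable curve. -/
def SpectrumOnCurve {G : Type} [NormedAddCommGroup G] [InnerProductSpace ℂ G] (N : G →L[ℂ] G) :
    Prop :=
  ∃ Γ : Set ℂ, RectifiableCurve Γ ∧ spectrum ℂ N ⊆ Γ

/-- The compression `V* N V`. -/
noncomputable def compress {H G : Type} [NormedAddCommGroup H] [InnerProductSpace ℂ H]
    [CompleteSpace H] [NormedAddCommGroup G] [InnerProductSpace ℂ G] [CompleteSpace G]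
    (V : H →L[ℂ] G) (N : G →L[ℂ] G) : H →L[ℂ] H :=
  (ContinuousLinearMap.adjoint V).comp (N.comp V)

/-- The commutator `N V V* - V V* N` of `N` and the projection `V V*` on the range of the isometry `V`. -/
noncomputable def defect {H G : Type} [NormedAddCommGroup H] [InnerProductSpace ℂ H]
    [CompleteSpace H] [NormedAddCommGroup G] [InnerProductSpace ℂ G] [CompleteSpace G]
    (V : H →L[ℂ] G) (N : G →L[ℂ] G) : G →L[ℂ] G :=
  N * V.comp (ContinuousLinearMap.adjoint V) - V.comp (ContinuousLinearMap.adjoint V) * N

/-- `Z` is, up to a small operator, the compression of a normal operator with spectrum on a rectifiable curve to a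
subspace which almost reduces it: `Z = V* N V + K` with `V` isometric and `N V V* - V V* N` and `K` small. -/
def Compression {H : Type} [NormedAddCommGroup H] [InnerProductSpace ℂ H] [CompleteSpace H]
    (Z : H →L[ℂ] H) : Prop :=
  ∃ (G : Type) (_ : NormedAddCommGroup G) (_ : InnerProductSpace ℂ G) (_ : CompleteSpace G)
    (N : G →L[ℂ] G) (V : H →L[ℂ] G) (K : H →L[ℂ] H), IsStarNormal N ∧ SpectrumOnCurve N ∧
    (∀ x, ‖V x‖ = ‖x‖) ∧ Small (defect V N) ∧ Small K ∧ Z = compress V N + K

/-- `Z` is quasi-similar to a normal operator (in a weak sense): `X Z = N X` and `Z Y = Y N` with an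
injective `X` and a `Y` with dense range, `N` normal on some Hilbert space. -/
def QuasiSimilarToNormal {H : Type} [NormedAddCommGroup H] [InnerProductSpace ℂ H]
    [CompleteSpace H] (Z : H →L[ℂ] H) : Prop :=
  ∃ (G : Type) (_ : NormedAddCommGroup G) (_ : InnerProductSpace ℂ G) (_ : CompleteSpace G)
    (N : G →L[ℂ] G) (X : H →L[ℂ] G) (Y : G →L[ℂ] H), IsStarNormal N ∧ Function.Injective X ∧
      DenseRange Y ∧ X.comp Z = N.comp X ∧ Z.comp Y = Y.comp N

section aux

variable {H : Type} [NormedAddCommGroup H] [InnerProductSpace ℂ H]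

theorem bdd (K : H →L[ℂ] H) (m : ℕ) :
    BddBelow {r : ℝ | ∃ G : H →L[ℂ] H, FiniteDimensional ℂ (LinearMap.range (G : H →ₗ[ℂ] H)) ∧
      Module.finrank ℂ (LinearMap.range (G : H →ₗ[ℂ] H)) ≤ m ∧ r = ‖K - G‖} := by
  refine ⟨0, ?_⟩
  rintro r ⟨G, -, -, rfl⟩
  exact norm_nonneg _

theorem ne (K : H →L[ℂ] H) (m : ℕ) :
    {r : ℝ | ∃ G : H →L[ℂ] H, FiniteDimensional ℂ (LinearMap.range (G : H →ₗ[ℂ] H)) ∧
      Module.finrank ℂ (LinearMap.range (G : H →ₗ[ℂ] H)) ≤ m ∧ r = ‖K - G‖}.Nonempty := by
  have h0 : LinearMap.range ((0 : H →L[ℂ] H) : H →ₗ[ℂ] H) = ⊥ := LinearMap.range_zero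
  refine ⟨‖K - 0‖, 0, ?_, ?_, rfl⟩
  · rw [h0]; infer_instance
  · rw [h0]; simp

theorem approx_nonneg (K : H →L[ℂ] H) (m : ℕ) : 0 ≤ approxNumber K m := by
  refine le_csInf (ne K m) ?_
  rintro r ⟨G, -, -, rfl⟩
  exact norm_nonneg _

theorem approx_anti (K : H →L[ℂ] H) {m n : ℕ} (h : m ≤ n) :
    approxNumber K n ≤ approxNumber K m := by
  refine csInf_le_csInf (bdd K n) (ne K m) ?_
  rintro r ⟨G, h1, h2, rfl⟩
  exact ⟨G, h1, h2.trans h, rfl⟩

theorem decay_of {K : H →L[ℂ] H} (h : PolyDecay K) : Pool.Agent.W402.HI.ApproxDecay K := by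
  obtain ⟨C, ε, hε, h⟩ := h
  refine ⟨C + 1, ε, hε, fun m hm => ?_⟩
  have hm0 : (0 : ℝ) < m := by exact_mod_cast hm
  have h1 : approxNumber K m < (C + 1) / (m : ℝ) ^ ε := by
    refine (h m hm).trans_lt ?_
    have : (0 : ℝ) < (m : ℝ) ^ ε := by positivity
    gcongr
    linarith
  obtain ⟨r, ⟨G, hG1, hG2, rfl⟩, hr⟩ := exists_lt_of_csInf_lt (ne K m) h1
  exact ⟨G, hG1, hG2, hr.le⟩

theorem decay_of_summable {K : H →L[ℂ] H} (h : InSchatten K) : PolyDecay K := by
  obtain ⟨p, hp, hs⟩ := h
  set S : ℝ := ∑' m : ℕ, approxNumber K m ^ p with hS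
  have hS0 : 0 ≤ S := tsum_nonneg fun m => Real.rpow_nonneg (approx_nonneg K m) _
  refine ⟨S ^ (1 / p), 1 / p, by positivity, fun m hm => ?_⟩
  have hm0 : (0 : ℝ) < m := by exact_mod_cast hm
  have h1 : (m : ℝ) * approxNumber K m ^ p ≤ S := by
    calc (m : ℝ) * approxNumber K m ^ p = ∑ _i ∈ Finset.range m, approxNumber K m ^ p := by simp
      _ ≤ ∑ i ∈ Finset.range m, approxNumber K i ^ p := by
          refine Finset.sum_le_sum fun i hi => ?_
          exact Real.rpow_le_rpow (approx_nonneg K m) (approx_anti K (Finset.mem_range.1 hi).le) hp.le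
      _ ≤ S := hs.sum_le_tsum _ fun i _ => Real.rpow_nonneg (approx_nonneg K i) _
  have h2 : approxNumber K m ^ p ≤ S / m := by
    rw [le_div_iff₀ hm0]
    linarith
  have h3 : (approxNumber K m ^ p) ^ (1 / p) ≤ (S / m) ^ (1 / p) :=
    Real.rpow_le_rpow (Real.rpow_nonneg (approx_nonneg K m) _) h2 (by positivity)
  rw [← Real.rpow_mul (approx_nonneg K m), mul_one_div_cancel hp.ne', Real.rpow_one,
    Real.div_rpow hS0 hm0.le] at h3
  exact h3

theorem decay_of_small {K : H →L[ℂ] H} (h : Small K) : Pool.Agent.W402.HI.ApproxDecay K := by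
  rcases h with h | h
  · exact decay_of h
  · exact decay_of (decay_of_summable h)

end aux

/-- a compression in the bicommutant of a reductive operator is normal -/
theorem compression_normal {H : Type} [NormedAddCommGroup H] [InnerProductSpace ℂ H]
    [CompleteSpace H] {T Z : H →L[ℂ] H} (hred : Reductive T)
    (hZ : ∀ Q : H →L[ℂ] H, Q * T = T * Q → Q * Z = Z * Q) (hc : Compression Z) :
    IsStarNormal Z := by
  obtain ⟨G, _, _, _, N, V, K, hN, ⟨Γ, ⟨γ, L, hγ, rfl⟩, hsp⟩, hV, hD, hK, hZe⟩ := hc
  have hEc : IsCompact (γ '' Set.Icc 0 1) := isCompact_Icc.image hγ.continuous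
  have hEne : (γ '' Set.Icc (0:ℝ) 1).Nonempty := ⟨γ 0, 0, by simp, rfl⟩
  have hG3 := Pool.Agent.W32.HI.G3.main G N (γ '' Set.Icc 0 1) hN hEc hEne hsp
  refine Pool.Agent.W706.HIR.isStarNormal_of_sc
    (Pool.Agent.J4.H86.DZ.compression (Pool.Agent.J4.H86.CR.rs_comm hred) ⟨?_, ?_⟩ V hV N K hZe γ L
      hγ (fun z hz => (hG3 z hz).1) ⟨1, 1, fun z hz _ => ?_⟩ (decay_of_small hK)
      (decay_of_small hD))
  · change Z * T = T * Z
    exact (hZ T rfl).symm
  · intro Q hQ
    exact hZ Q hQ
  · rw [pow_one]
    exact (hG3 z hz).2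

/-- **Theorem.** Let `T` be reductive and let `T ^ n + ∑ j, Z j * T ^ j` (sum over `j < n`) be compact, where
every `Z j` commutes with all operators commuting with `T`, and every `Z j` is a compression `V* N V + K` as above
or quasi-similar to a normal operator. Then `T` is normal. -/
theorem result (H : Type) [NormedAddCommGroup H] [InnerProductSpace ℂ H] [CompleteSpace H]
    (T : H →L[ℂ] H) (hred : Reductive T) (n : ℕ) (Z : Fin n → (H →L[ℂ] H))
    (hZ : ∀ j, ∀ Q : H →L[ℂ] H, Q * T = T * Q → Q * Z j = Z j * Q)
    (hc : ∀ j, Compression (Z j) ∨ QuasiSimilarToNormal (Z j))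
    (hK : IsCompactOperator (T ^ n + ∑ j : Fin n, Z j * T ^ (j : ℕ) : H →L[ℂ] H)) :
    IsStarNormal T := by
  refine H307R3.RO.main T hred n Z (fun j S hS => hZ j S hS) (fun j => ?_) hK
  rcases hc j with h | h
  · exact ⟨H, inferInstance, inferInstance, inferInstance, Z j, 1, 1,
      compression_normal hred (hZ j) h, Function.injective_id, denseRange_id, rfl, rfl⟩
  · exact h

end Pool.Agent.Results.MP_49c4d9_an.ReductiveCompressions
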