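import Pool.Agent.J4.H86.CR.MainC
import Pool.Agent.H307R3.RO.Fin

/-!
# MP_49c4d9_an: reductive operators algebraic, modulo the compact operators, over operators `S + K`

Let `T` be reductive and let `T ^ n + Z_{n-1} T ^ (n-1) + ... + Z_0` be compact, where every `Z_j` is in the
bicommutant of `T` and is of the form `S + K`, `S` an arbitrary operator whose resolvent exists off a
rectifiable curve and grows at most polynomially at the curve, `K` with approximation numbers `O(m ^ (-ε))`,
for example in a Schatten class (other `Z_j` may be quasi-similar to normal operators). Then `T` is normal.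
No self-commutator is assumed to be compact. The cases `n = 1`, `Z_0 = -T` and `Z_0 = c - p(T)`: a reductive
operator `T` is normal if `T`, or `p(T)` for some nonconstant polynomial `p`, is a sum `S + K` as above; `S` may be similar to a
normal operator with spectrum on a rectifiable curve, or an invertible operator with `‖S ^ n‖ = O(|n| ^ k)`,
or `i` times the generator of a group of polynomial growth, or any bounded scalar type operator with spectrum
on such a curve.

Proof. Let `𝒞` be the commutant of `T` and `R = Z_j`. By the starting library the orthogonal complement of a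
closed subspace invariant under `𝒞` is invariant under `𝒞`. Let `𝒩` be the von Neumann algebra of `𝒞`.
(1) On the part `H₂` of the space on which `𝒩` has no compact operators except `0`, the norm of an element of
`𝒩` is its essential norm. So the resolvent of `R` on `H₂` is bounded by the resolvent of `S`, and a version for
`(𝒞, R)` of the theorem of the starting library on locally integrable powers of local resolvents shows that
`R` is normal on `H₂`. (2) Let `D = R*R - RR*` and let `C` be a compact element of `𝒩`. The minimal dimension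
argument of the starting library is applied to the compact operator `(DC)*(DC)`: if it does not vanish there is a
`𝒞`-invariant subspace `V` on which it does not vanish and which has no `𝒞`-invariant subspace except `0` and
`V`. The eigenvalues of `R` off the curve are moved to the curve, and the restriction of `R` to `V` has a
hyperinvariant subspace, unless its spectrum is a point `c`; in that case a power of `R - c` is compact on `V`,
as the image of the resolvent in the Calkin algebra grows polynomially outside the curve; so `R` is scalar on `V`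
or Lomonosov's theorem gives a hyperinvariant subspace. So `DC = 0` for all compact `C` in `𝒩`, and `R` is
normal. (3) Now all `Z_j` are normal and the theorem of the starting file `AlgebraicModCompact` applies.
-/

set_option autoImplicit false

open Metric
open scoped InnerProductSpace

namespace Pool.Agent.Results.MP_49c4d9_an.ReductiveGeneralizedScalar

/-- `T` is reductive: every closed invariant subspace of `T` is invariant under the adjoint. -/
def Reductive {H : Type} [NormedAddCommGroup H] [InnerProductSpace ℂ H] [CompleteSpace H]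
    (T : H →L[ℂ] H) : Prop :=
  ∀ V : Submodule ℂ H, IsClosed (V : Set H) → (∀ x ∈ V, T x ∈ V) →
    ∀ x ∈ V, ContinuousLinearMap.adjoint T x ∈ V

/-- The approximation number `a_m(K)`: the distance in operator norm from `K` to the set of
operators of rank at most `m` (on a Hilbert space this is the singular number `s_{m+1}(K)`). -/
noncomputable def approxNumber {H : Type} [NormedAddCommGroup H] [InnerProductSpace ℂ H]
    (K : H →L[ℂ] H) (m : ℕ) : ℝ :=
  sInf {r : ℝ | ∃ G : H →L[ℂ] H, FiniteDimensional ℂ (LinearMap.range (G : H →ₗ[ℂ] H)) ∧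
    Module.finrank ℂ (LinearMap.range (G : H →ₗ[ℂ] H)) ≤ m ∧ r = ‖K - G‖}

/-- The approximation numbers of `K` decay polynomially. -/
def PolyDecay {H : Type} [NormedAddCommGroup H] [InnerProductSpace ℂ H] (K : H →L[ℂ] H) : Prop :=
  ∃ C ε : ℝ, 0 < ε ∧ ∀ m : ℕ, 1 ≤ m → approxNumber K m ≤ C / (m : ℝ) ^ ε

/-- `K` is in a Schatten class. -/
def InSchatten {H : Type} [NormedAddCommGroup H] [InnerProductSpace ℂ H] (K : H →L[ℂ] H) : Prop :=
  ∃ p : ℝ, 0 < p ∧ Summable fun m : ℕ => approxNumber K m ^ p

/-- `Γ` is a rectifiable curve: the image of `[0,1]` under a Lipschitz map. -/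
def RectifiableCurve (Γ : Set ℂ) : Prop :=
  ∃ (γ : ℝ → ℂ) (L : NNReal), LipschitzWith L γ ∧ Γ = γ '' Set.Icc 0 1

/-- The resolvent of `S` exists off `Γ` and grows at most polynomially at `Γ`. -/
def PolyGrowth {H : Type} [NormedAddCommGroup H] [InnerProductSpace ℂ H] (S : H →L[ℂ] H)
    (Γ : Set ℂ) : Prop :=
  (∀ z, z ∉ Γ → z ∈ resolventSet ℂ S) ∧
    ∃ (C : ℝ) (k : ℕ), ∀ z, z ∉ Γ → infDist z Γ ≤ 1 → ‖resolvent S z‖ ≤ C / infDist z Γ ^ k

/-- `Z = S + K`, where `S` is an operator with resolvent of polynomial growth at a rectifiable curve and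
`K` is in a Schatten class, or only has polynomially decaying approximation numbers. -/
def Tame {H : Type} [NormedAddCommGroup H] [InnerProductSpace ℂ H] (Z : H →L[ℂ] H) : Prop :=
  ∃ (S K : H →L[ℂ] H) (Γ : Set ℂ), RectifiableCurve Γ ∧ PolyGrowth S Γ ∧
    (PolyDecay K ∨ InSchatten K) ∧ Z = S + K

/-- `Z` is quasi-similar to a normal operator (in a weak sense): `X Z = N X` and `Z Y = Y N` with an
injective `X` and a `Y` with dense range, `N` normal on some Hilbert space. -/
def QuasiSimilarToNormal {H : Type} [NormedAddCommGroup H] [InnerProductSpace ℂ H]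
    [CompleteSpace H] (Z : H →L[ℂ] H) : Prop :=
  ∃ (G : Type) (_ : NormedAddCommGroup G) (_ : InnerProductSpace ℂ G) (_ : CompleteSpace G)
    (N : G →L[ℂ] G) (X : H →L[ℂ] G) (Y : G →L[ℂ] H), IsStarNormal N ∧ Function.Injective X ∧
      DenseRange Y ∧ X.comp Z = N.comp X ∧ Z.comp Y = Y.comp N

section aux

variable {H : Type} [NormedAddCommGroup H] [InnerProductSpace ℂ H]

theorem bdd (K : H →L[ℂ] H) (m : ℕ) :
    BddBelow {r : ℝ | ∃ G : H →L[ℂ] H, FiniteDimensional ℂ (LinearMap.range (G : H →ₗ[ℂ] H)) ∧
      Module.finrank ℂ (LinearMap.range (G : H →ₗ[ℂ] H)) ≤ m ∧ r = ‖K - G‖} := by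
  refine ⟨0, ?_⟩
  rintro r ⟨G, -, -, rfl⟩
  exact norm_nonneg _

theorem ne (K : H →L[ℂ] H) (m : ℕ) :
    {r : ℝ | ∃ G : H →L[ℂ] H, FiniteDimensional ℂ (LinearMap.range (G : H →ₗ[ℂ] H)) ∧
      Module.finrank ℂ (LinearMap.range (G : H →ₗ[ℂ] H)) ≤ m ∧ r = ‖K - G‖}.Nonempty := by
  have h0 : LinearMap.range ((0 : H →L[ℂ] H) : H →ₗ[ℂ] H) = ⊥ := LinearMap.range_zero
  refine ⟨‖K - 0‖, 0, ?_, ?_, rfl⟩
  · rw [h0]; infer_instance
  · rw [h0]; simp

theorem approx_nonneg (K : H →L[ℂ] H) (m : ℕ) : 0 ≤ approxNumber K m := by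
  refine le_csInf (ne K m) ?_
  rintro r ⟨G, -, -, rfl⟩
  exact norm_nonneg _

theorem approx_anti (K : H →L[ℂ] H) {m n : ℕ} (h : m ≤ n) :
    approxNumber K n ≤ approxNumber K m := by
  refine csInf_le_csInf (bdd K n) (ne K m) ?_
  rintro r ⟨G, h1, h2, rfl⟩
  exact ⟨G, h1, h2.trans h, rfl⟩

theorem decay_of {K : H →L[ℂ] H} (h : PolyDecay K) : Pool.Agent.W402.HI.ApproxDecay K := by
  obtain ⟨C, ε, hε, h⟩ := h
  refine ⟨C + 1, ε, hε, fun m hm => ?_⟩
  have hm0 : (0 : ℝ) < m := by exact_mod_cast hm
  have h1 : approxNumber K m < (C + 1) / (m : ℝ) ^ ε := by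
    refine (h m hm).trans_lt ?_
    have : (0 : ℝ) < (m : ℝ) ^ ε := by positivity
    gcongr
    linarith
  obtain ⟨r, ⟨G, hG1, hG2, rfl⟩, hr⟩ := exists_lt_of_csInf_lt (ne K m) h1
  exact ⟨G, hG1, hG2, hr.le⟩

theorem decay_of_summable {K : H →L[ℂ] H} (h : InSchatten K) : PolyDecay K := by
  obtain ⟨p, hp, hs⟩ := h
  set S : ℝ := ∑' m : ℕ, approxNumber K m ^ p with hS
  have hS0 : 0 ≤ S := tsum_nonneg fun m => Real.rpow_nonneg (approx_nonneg K m) _
  refine ⟨S ^ (1 / p), 1 / p, by positivity, fun m hm => ?_⟩
  have hm0 : (0 : ℝ) < m := by exact_mod_cast hm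
  have h1 : (m : ℝ) * approxNumber K m ^ p ≤ S := by
    calc (m : ℝ) * approxNumber K m ^ p = ∑ _i ∈ Finset.range m, approxNumber K m ^ p := by simp
      _ ≤ ∑ i ∈ Finset.range m, approxNumber K i ^ p := by
          refine Finset.sum_le_sum fun i hi => ?_
          exact Real.rpow_le_rpow (approx_nonneg K m) (approx_anti K (Finset.mem_range.1 hi).le) hp.le
      _ ≤ S := hs.sum_le_tsum _ fun i _ => Real.rpow_nonneg (approx_nonneg K i) _
  have h2 : approxNumber K m ^ p ≤ S / m := by
    rw [le_div_iff₀ hm0]
    linarith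
  have h3 : (approxNumber K m ^ p) ^ (1 / p) ≤ (S / m) ^ (1 / p) :=
    Real.rpow_le_rpow (Real.rpow_nonneg (approx_nonneg K m) _) h2 (by positivity)
  rw [← Real.rpow_mul (approx_nonneg K m), mul_one_div_cancel hp.ne', Real.rpow_one,
    Real.div_rpow hS0 hm0.le] at h3
  exact h3

end aux

/-- a tame operator in the bicommutant of a reductive operator is normal -/
theorem tame_normal {H : Type} [NormedAddCommGroup H] [InnerProductSpace ℂ H] [CompleteSpace H]
    {T Z : H →L[ℂ] H} (hred : Reductive T)
    (hZ : ∀ Q : H →L[ℂ] H, Q * T = T * Q → Q * Z = Z * Q) (hc : Tame Z) : IsStarNormal Z := by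
  obtain ⟨S, K, Γ, ⟨γ, L, hγ, rfl⟩, hS, hK, hSK⟩ := hc
  have hK' : Pool.Agent.W402.HI.ApproxDecay K := by
    rcases hK with h | h
    · exact decay_of h
    · exact decay_of (decay_of_summable h)
  refine Pool.Agent.W706.HIR.isStarNormal_of_sc
    (Pool.Agent.J4.H86.CR.generalC (Pool.Agent.J4.H86.CR.rs_comm hred) ⟨?_, ?_⟩ S K hSK γ L hγ hS.1
      hS.2 hK')
  · change Z * T = T * Z
    exact (hZ T rfl).symm
  · intro Q hQ
    exact hZ Q hQ

/-- **Theorem.** Let `T` be reductive and let `T ^ n + ∑ j, Z j * T ^ j` (sum over `j < n`) be compact, where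
every `Z j` commutes with all operators commuting with `T`, and every `Z j` is a sum `S + K` (`S` with resolvent of
polynomial growth at a rectifiable curve, `K` of a Schatten class or with polynomially decaying approximation
numbers) or quasi-similar to a normal operator. Then `T` is normal. -/
theorem result (H : Type) [NormedAddCommGroup H] [InnerProductSpace ℂ H] [CompleteSpace H]
    (T : H →L[ℂ] H) (hred : Reductive T) (n : ℕ) (Z : Fin n → (H →L[ℂ] H))
    (hZ : ∀ j, ∀ Q : H →L[ℂ] H, Q * T = T * Q → Q * Z j = Z j * Q)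
    (hc : ∀ j, Tame (Z j) ∨ QuasiSimilarToNormal (Z j))
    (hK : IsCompactOperator (T ^ n + ∑ j : Fin n, Z j * T ^ (j : ℕ) : H →L[ℂ] H)) :
    IsStarNormal T := by
  refine H307R3.RO.main T hred n Z (fun j S hS => hZ j S hS) (fun j => ?_) hK
  rcases hc j with h | h
  · exact ⟨H, inferInstance, inferInstance, inferInstance, Z j, 1, 1, tame_normal hred (hZ j) h,
      Function.injective_id, denseRange_id, rfl, rfl⟩
  · exact h

end Pool.Agent.Results.MP_49c4d9_an.ReductiveGeneralizedScalar
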